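import Mathlib

/-! A unital left McCoy ring that is not right Dischinger. -/

set_option autoImplicit false

namespace Pool.Agent.Results.MP_4d240a_al.LeftCex

open Polynomial TensorProduct

/-- Left McCoy: nonzero `f, g` in `S[x]` with `f g = 0` force a nonzero `s` in `S` with `s g = 0`. -/
def LeftMcCoy (S : Type) [Ring S] : Prop :=
  ∀ f g : S[X], f ≠ 0 → g ≠ 0 → f * g = 0 → ∃ s : S, s ≠ 0 ∧ C s * g = 0

abbrev E := Multiset ℤ

def st (w m : E) : E := w + m.filter fun t => ∀ s ∈ w, t ≤ s

theorem mem_st {w m : E} {t : ℤ} : t ∈ st w m ↔ t ∈ w ∨ t ∈ m ∧ ∀ s ∈ w, t ≤ s := by simp [st]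

theorem st_assoc (w m n : E) : st (st w m) n = st w (st m n) := by
  conv_rhs => rw [st, st, Multiset.filter_add, Multiset.filter_filter, ← add_assoc]
  rw [st]
  congr 1
  refine Multiset.filter_congr fun t _ => ⟨fun h => ⟨fun s hs => h s (mem_st.2 (Or.inl hs)),
    fun s hs => ?_⟩, fun h s hs => ?_⟩
  · by_contra hlt
    refine hlt (h s (mem_st.2 (Or.inr ⟨hs, fun r hr => ?_⟩)))
    have := h r (mem_st.2 (Or.inl hr)); omega
  · rcases mem_st.1 hs with hs | hs
    · exact h.1 s hs
    · exact h.2 s hs.1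

theorem map_st (w m : E) (k : ℤ) : (st w m).map (· + k) = st (w.map (· + k)) (m.map (· + k)) := by
  simp [st, Multiset.filter_map]

@[ext] structure M where
  w : E
  k : ℤ

instance : Monoid M where
  mul p q := ⟨st p.w (q.w.map (· + p.k)), p.k + q.k⟩
  one := ⟨0, 0⟩
  mul_assoc p q r := M.ext (by
    change st (st p.w (q.w.map (· + p.k))) (r.w.map (· + (p.k + q.k))) =
      st p.w ((st q.w (r.w.map (· + q.k))).map (· + p.k))
    rw [map_st, st_assoc, Multiset.map_map]
    congr 3; ext; simp; ring) (add_assoc p.k q.k r.k)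
  one_mul p := M.ext (by change st 0 (p.w.map (· + 0)) = p.w; simp [st]) (zero_add p.k)
  mul_one p := M.ext (by change st p.w ((0 : E).map (· + p.k)) = p.w; simp [st]) (add_zero p.k)

theorem mul_w (p q : M) : (p * q).w = st p.w (q.w.map (· + p.k)) := rfl
theorem mul_k (p q : M) : (p * q).k = p.k + q.k := rfl

section key
variable {V : Type} [AddCommGroup V] [Module ℚ V]

noncomputable def eps : (E →₀ V) →ₗ[ℚ] V := Finsupp.lsum ℚ fun _ => LinearMap.id

@[simp] theorem eps_single (u : E) (v : V) : eps (Finsupp.single u v) = v := by simp [eps]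

def hi (s : ℤ) (u : E) : E := u.filter (s < ·)

noncomputable def lam (s : ℤ) : (E →₀ V) →ₗ[ℚ] (E →₀ ℚ[X] ⊗[ℚ] V) :=
  Finsupp.lsum ℚ fun u => Finsupp.lsingle (hi s u) ∘ₗ TensorProduct.mk ℚ ℚ[X] V (X ^ u.count s)

@[simp] theorem lam_single (s : ℤ) (u : E) (v : V) :
    lam s (Finsupp.single u v) = Finsupp.single (hi s u) ((X ^ u.count s : ℚ[X]) ⊗ₜ v) := by
  simp [lam]

noncomputable def ev : ℚ[X] ⊗[ℚ] V →ₗ[ℚ] V :=
  (TensorProduct.lid ℚ V).toLinearMap ∘ₗ (Polynomial.leval (1 : ℚ)).rTensor V

theorem ev_smul (c : ℚ[X]) (n : ℚ[X] ⊗[ℚ] V) : ev (c • n) = c.eval 1 • ev n := by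
  induction n with
  | zero => simp
  | tmul p v => simp [ev, smul_tmul', mul_smul]
  | add x y hx hy => simp [hx, hy]

theorem ev_eps_lam (s : ℤ) (G : E →₀ V) : ev (eps (lam s G)) = eps G := by
  induction G using Finsupp.induction_linear with
  | zero => simp
  | add x y hx hy => simp [hx, hy]
  | single u v => simp [ev]

theorem li_of_ev {I : Type} (v : I → ℚ[X] ⊗[ℚ] V) (h : LinearIndependent ℚ fun i => ev (v i)) :
    LinearIndependent ℚ[X] v := by
  rw [linearIndependent_iff'] at h ⊢
  intro s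
  have H : ∀ n : ℕ, ∀ c : I → ℚ[X], ∑ i ∈ s, c i • v i = 0 → ∀ i ∈ s, (X - C 1) ^ n ∣ c i := by
    intro n
    induction n with
    | zero => simp
    | succ n ih =>
      intro c hc
      have h1 := h s (fun i => (c i).eval 1) (by simpa [ev_smul] using congrArg ev hc)
      have h2 : ∀ i ∈ s, (X - C 1) * (c i /ₘ (X - C 1)) = c i := fun i hi =>
        mul_divByMonic_eq_iff_isRoot.2 (h1 i hi)
      have h3 : (X - C 1 : ℚ[X]) • ∑ i ∈ s, (c i /ₘ (X - C 1)) • v i = 0 := by
        rw [Finset.smul_sum, ← hc]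
        exact Finset.sum_congr rfl fun i hi => by rw [← mul_smul, h2 i hi]
      intro i hi
      rw [← h2 i hi, pow_succ']
      exact mul_dvd_mul_left _ (ih _ ((smul_eq_zero.1 h3).resolve_left (X_sub_C_ne_zero 1)) i hi)
  intro c hc i hi
  refine eq_zero_of_dvd_of_natDegree_lt (H ((c i).natDegree + 1) c hc i hi) ?_
  rw [natDegree_pow, natDegree_X_sub_C]; omega

theorem lam_hi (s : ℤ) (w : E) (hw : ∀ t ∈ w, s < t) (G : E →₀ V) :
    lam s (G.mapDomain (st w)) = (lam s G).mapDomain (st w) := by
  induction G using Finsupp.induction_linear with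
  | zero => simp
  | add x y hx hy => simp [hx, hy, Finsupp.mapDomain_add]
  | single u v =>
    have h1 : hi s (st w u) = st w (hi s u) := by
      simp only [hi, st, Multiset.filter_add, Multiset.filter_filter, and_comm,
        Multiset.filter_eq_self.2 hw]
    have h2 : (st w u).count s = u.count s := by
      rw [st, Multiset.count_add, Multiset.count_eq_zero.2 fun h => lt_irrefl _ (hw s h),
        Multiset.count_filter_of_pos fun t ht => (hw t ht).le, zero_add]
    simp [h1, h2]

theorem lam_lo (s : ℤ) (w : E) (hw : ∀ t ∈ w, s ≤ t) (hs : s ∈ w) (G : E →₀ V) :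
    lam s (G.mapDomain (st w)) =
      Finsupp.single (hi s w) ((X ^ w.count s : ℚ[X]) • eps (lam s G)) := by
  induction G using Finsupp.induction_linear with
  | zero => simp
  | add x y hx hy => simp [hx, hy, Finsupp.mapDomain_add]
  | single u v =>
    have h1 : hi s (st w u) = hi s w := by
      simp only [hi, st, Multiset.filter_add, Multiset.filter_filter, add_eq_left,
        Multiset.filter_eq_nil]
      exact fun t _ h => absurd (h.2 s hs) (by omega)
    have h2 : (st w u).count s = w.count s + u.count s := by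
      rw [st, Multiset.count_add, Multiset.count_filter_of_pos hw]
    simp [h1, h2, smul_tmul', pow_add]

end key

theorem key {I : Type} (n : ℕ) : ∀ (V : Type) [AddCommGroup V] [Module ℚ V] (G : I → E →₀ V),
    (LinearIndependent ℚ fun i => eps (G i)) → ∀ (S : Finset (I × E)) (c : I × E → ℚ), S.card ≤ n →
      ∑ p ∈ S, c p • (G p.1).mapDomain (st p.2) = 0 → ∀ p ∈ S, c p = 0 := by
  classical
  induction n with
  | zero => intro V _ _ G _ S c hS _ p hp; simp [Finset.card_eq_zero.1 (Nat.le_zero.1 hS)] at hp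
  | succ n ih =>
    intro V _ _ G hG S c hS hc
    by_cases hT : (S.biUnion fun p => p.2.toFinset).Nonempty
    swap
    · have h0 : ∀ p ∈ S, p.2 = 0 := fun p hp => Multiset.eq_zero_of_forall_notMem fun t ht =>
        hT ⟨t, Finset.mem_biUnion.2 ⟨p, hp, Multiset.mem_toFinset.2 ht⟩⟩
      have h1 : LinearIndepOn ℚ (fun p : I × E => eps (G p.1)) S :=
        hG.comp (fun p : (S : Set (I × E)) => p.1.1) fun p q h =>
          Subtype.ext (Prod.ext h (by rw [h0 _ p.2, h0 _ q.2]))
      refine linearIndepOn_finset_iff.1 h1 c ?_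
      have := congrArg eps hc
      rw [map_sum, map_zero] at this
      rw [← this]
      refine Finset.sum_congr rfl fun p hp => ?_
      rw [h0 p hp, map_smul, show st 0 = id from funext fun u => by simp [st], Finsupp.mapDomain_id]
    obtain ⟨s, hs, hmin⟩ := Finset.exists_min_image _ id hT
    have hle : ∀ p ∈ S, ∀ t ∈ p.2, s ≤ t := fun p hp t ht =>
      hmin t (Finset.mem_biUnion.2 ⟨p, hp, Multiset.mem_toFinset.2 ht⟩)
    obtain ⟨p0, hp0, hs0⟩ := Finset.mem_biUnion.1 hs
    let v : I → ℚ[X] ⊗[ℚ] V := fun i => eps (lam s (G i))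
    have hv : LinearIndependent ℚ fun p : ℕ × I => (X ^ p.1 : ℚ[X]) • v p.2 := by
      have := linearIndependent_smul (basisMonomials ℚ).linearIndependent
        (li_of_ev v (by simpa [v, ev_eps_lam] using hG))
      simpa [monomial_one_right_eq_X_pow] using this
    have hc' := congrArg (lam s) hc
    rw [map_sum, map_zero, ← Finset.sum_filter_add_sum_filter_not S fun p => s ∈ p.2] at hc'
    have e1 : ∑ p ∈ S with s ∈ p.2, lam s (c p • (G p.1).mapDomain (st p.2)) =
        ∑ p ∈ S with s ∈ p.2, c p • Finsupp.single (hi s p.2) ((X ^ p.2.count s : ℚ[X]) • v p.1) :=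
      Finset.sum_congr rfl fun p hp => by
        rw [map_smul, lam_lo s _ (hle p (Finset.mem_filter.1 hp).1) (Finset.mem_filter.1 hp).2]
    have e2 : ∑ p ∈ S with s ∉ p.2, lam s (c p • (G p.1).mapDomain (st p.2)) =
        ∑ p ∈ S with s ∉ p.2, c p • (lam s (G p.1)).mapDomain (st p.2) :=
      Finset.sum_congr rfl fun p hp => by
        rw [map_smul, lam_hi s _ fun t ht => lt_of_le_of_ne (hle p (Finset.mem_filter.1 hp).1 t ht)
          fun h => (Finset.mem_filter.1 hp).2 (h ▸ ht)]
    rw [e1, e2] at hc'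
    let W : Submodule ℚ (ℚ[X] ⊗[ℚ] V) :=
      Submodule.span ℚ ((fun p : ℕ × I => (X ^ p.1 : ℚ[X]) • v p.2) '' {p | p.1 ≠ 0})
    let q := Finsupp.mapRange.linearMap (α := E) W.mkQ
    have hq : ∀ F : E →₀ ℚ[X] ⊗[ℚ] V, eps (q F) = W.mkQ (eps F) := fun F => by
      induction F using Finsupp.induction_linear with
      | zero => simp
      | add x y hx hy => simp only [map_add, hx, hy]
      | single u v => simp [q]
    have hq2 : ∀ (F : E →₀ ℚ[X] ⊗[ℚ] V) (w : E),
        q (F.mapDomain (st w)) = (q F).mapDomain (st w) := fun F w => by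
      induction F using Finsupp.induction_linear with
      | zero => simp
      | add x y hx hy => simp only [map_add, hx, hy, Finsupp.mapDomain_add]
      | single u v => simp [q]
    have h1 : ∀ p ∈ S.filter fun p => s ∉ p.2, c p = 0 := by
      refine ih _ (fun i => q (lam s (G i))) ?_ _ c ?_ ?_
      · simp only [hq]
        have h0 : LinearIndependent ℚ v := by
          simpa [Function.comp_def] using hv.comp (fun i : I => ((0 : ℕ), i)) fun _ _ h => by
            simpa using h
        refine h0.map (f := W.mkQ) ?_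
        have := hv.disjoint_span_image (s := {p | p.1 = 0}) (t := {p | p.1 ≠ 0})
          (Set.disjoint_left.2 fun p h1 h2 => h2 h1)
        rw [Submodule.ker_mkQ]
        refine this.mono_left (Submodule.span_mono ?_)
        rintro _ ⟨i, rfl⟩
        exact ⟨(0, i), rfl, by simp⟩
      · have : (S.filter fun p => s ∉ p.2).card < S.card :=
          Finset.card_lt_card (Finset.filter_ssubset.2 ⟨p0, hp0, by simpa using hs0⟩)
        omega
      · have := congrArg q hc'
        rw [map_add, map_sum, map_sum, map_zero, Finset.sum_eq_zero, zero_add] at this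
        · simpa only [map_smul, hq2] using this
        · intro p hp
          have : W.mkQ ((X ^ p.2.count s : ℚ[X]) • v p.1) = 0 :=
            (Submodule.Quotient.mk_eq_zero W).2 (Submodule.subset_span ⟨(p.2.count s, p.1),
              Multiset.count_ne_zero.2 (Finset.mem_filter.1 hp).2, rfl⟩)
          rw [map_smul]
          simp only [q, Finsupp.mapRange.linearMap_apply, Finsupp.mapRange_single, this]
          simp
    rw [Finset.sum_eq_zero (s := S.filter fun p => s ∉ p.2) fun p hp => by rw [h1 p hp, zero_smul],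
      add_zero] at hc'
    have h2 : LinearIndepOn ℚ (fun p : I × E =>
        Finsupp.single (hi s p.2) ((X ^ p.2.count s : ℚ[X]) • v p.1)) (S.filter fun p => s ∈ p.2) := by
      refine (Finsupp.linearIndependent_single (ι := E) _ fun _ => hv).comp
        (fun p : (S.filter fun p : I × E => s ∈ p.2 : Set (I × E)) =>
          (⟨hi s p.1.2, (p.1.2.count s, p.1.1)⟩ : Σ _ : E, ℕ × I)) fun p r h => ?_
      simp only [Sigma.mk.injEq, heq_eq_eq, Prod.mk.injEq] at h
      refine Subtype.ext (Prod.ext h.2.2 (Multiset.ext.2 fun t => ?_))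
      rcases lt_trichotomy s t with ht | rfl | ht
      · simpa [hi, ht] using congrArg (Multiset.count t) h.1
      · exact h.2.1
      · rw [Multiset.count_eq_zero.2 fun h => ht.not_ge (hle _ (Finset.mem_filter.1 p.2).1 t h),
          Multiset.count_eq_zero.2 fun h => ht.not_ge (hle _ (Finset.mem_filter.1 r.2).1 t h)]
    intro p hp
    by_cases h : s ∈ p.2
    · have hp' : p ∈ S.filter fun p => s ∈ p.2 := Finset.mem_filter.2 ⟨hp, h⟩
      exact (linearIndepOn_finset_iff (R := ℚ) (M := E →₀ ℚ[X] ⊗[ℚ] V)).1 h2 c hc' p hp'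
    · exact h1 p (Finset.mem_filter.2 ⟨hp, h⟩)

abbrev R := MonoidAlgebra ℚ M
abbrev L := AddMonoidAlgebra ℚ (ℕ × ℤ)

noncomputable def bs : Module.Basis (M × ℕ) ℚ R[X] :=
  (MonoidAlgebra.basis M ℚ).smulTower (basisMonomials R)

theorem bs_apply (p : M × ℕ) : bs p = monomial p.2 (MonoidAlgebra.single p.1 1) := by
  simp [bs, smul_monomial]

theorem bs_mul (p q : M × ℕ) : bs p * bs q = bs (p.1 * q.1, p.2 + q.2) := by
  simp [bs_apply, monomial_mul_monomial, MonoidAlgebra.single_mul_single]

noncomputable def Phi : R[X] →ₗ[ℚ] (E →₀ L) :=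
  bs.constr ℚ fun p => Finsupp.single p.1.w (AddMonoidAlgebra.single (p.2, p.1.k) 1)

theorem Phi_mul (p : M × ℕ) (g : R[X]) :
    Phi (bs p * g) = (Phi (bs (⟨0, p.1.k⟩, p.2) * g)).mapDomain (st p.1.w) := by
  have : Phi ∘ₗ LinearMap.mulLeft ℚ (bs p) = Finsupp.lmapDomain _ ℚ (st p.1.w) ∘ₗ Phi ∘ₗ
      LinearMap.mulLeft ℚ (bs (⟨0, p.1.k⟩, p.2)) := bs.ext fun q => by
    simp [bs_mul, Phi, mul_w, mul_k, st]
  exact LinearMap.congr_fun this g

theorem eps_Phi (p : M × ℕ) (g : R[X]) :
    eps (Phi (bs p * g)) = AddMonoidAlgebra.single (p.2, p.1.k) 1 * eps (Phi g) := by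
  have : eps ∘ₗ Phi ∘ₗ LinearMap.mulLeft ℚ (bs p) =
      LinearMap.mulLeft ℚ (AddMonoidAlgebra.single (p.2, p.1.k) 1) ∘ₗ eps ∘ₗ Phi := bs.ext fun q => by
    simp [bs_mul, Phi, mul_k, AddMonoidAlgebra.single_mul_single]
  exact LinearMap.congr_fun this g

theorem result : ∃ (S : Type) (_ : Ring S), LeftMcCoy S ∧
    ∃ a : S, (∃ y, a = a ^ 2 * y) ∧ ∀ z, a ≠ z * a ^ 2 := by
  classical
  refine ⟨R, inferInstance, fun f g hf hg hfg => ?_, MonoidAlgebra.single ⟨{0}, 1⟩ 1,
    ⟨MonoidAlgebra.single ⟨0, -1⟩ 1, ?_⟩, fun z h => ?_⟩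
  · by_cases h0 : eps (Phi g) = 0
    · obtain ⟨N, hN⟩ := ((bs.repr g).support.biUnion fun p => p.1.w.toFinset).bddBelow
      refine ⟨.single ⟨{N - 1}, 0⟩ 1, by simp, ?_⟩
      let Psi : L →ₗ[ℚ] R[X] := (AddMonoidAlgebra.basis (ℕ × ℤ) ℚ).constr ℚ
        fun p => bs (⟨{N - 1}, p.2⟩, p.1)
      have h1 : ∀ p ∈ (bs.repr g).support, C (.single ⟨{N - 1}, 0⟩ 1) * bs p =
          Psi (eps (Phi (bs p))) := fun p hp => by
        have e : (C (.single ⟨{N - 1}, 0⟩ 1) : R[X]) = bs (⟨{N - 1}, 0⟩, 0) := by simp [bs_apply]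
        have e' : st {N - 1} p.1.w = {N - 1} := by
          simp only [st, add_eq_left, Multiset.filter_eq_nil]
          intro t ht h
          have h1 := h _ (Multiset.mem_singleton_self _)
          have h2 : N ≤ t := hN (Finset.mem_coe.2 (Finset.mem_biUnion.2
            ⟨p, hp, Multiset.mem_toFinset.2 ht⟩))
          omega
        rw [e, bs_mul]
        simp only [Phi, Module.Basis.constr_basis, eps_single, Psi,
          ← AddMonoidAlgebra.basis_apply, zero_add]
        congr 2
        ext1 <;> simp [mul_w, mul_k, e']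
      have h2 : C (.single ⟨{N - 1}, 0⟩ 1) * g = Psi (eps (Phi g)) := by
        conv => enter [1, 2]; rw [← bs.linearCombination_repr g]
        conv => enter [2, 2, 2, 2]; rw [← bs.linearCombination_repr g]
        simp only [Finsupp.linearCombination_apply, Finsupp.sum, Finset.mul_sum, map_sum, map_smul,
          mul_smul_comm]
        exact Finset.sum_congr rfl fun p hp => by rw [h1 p hp]
      rw [h2, h0, map_zero]
    · exfalso
      let G : ℕ × ℤ → E →₀ L := fun i => Phi (bs (⟨0, i.2⟩, i.1) * g)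
      have hG : LinearIndependent ℚ fun i => eps (G i) := by
        simp only [G, eps_Phi]
        exact (AddMonoidAlgebra.basis (ℕ × ℤ) ℚ).linearIndependent.map'
          (LinearMap.mulRight ℚ (eps (Phi g)))
          (LinearMap.ker_eq_bot.2 fun x y h => mul_right_cancel₀ h0 h)
      have hli : LinearIndependent ℚ fun p : (ℕ × ℤ) × E => (G p.1).mapDomain (st p.2) :=
        linearIndependent_iff'.2 fun S c => key _ _ G hG S c le_rfl
      have h2 := linearIndependent_iff.1 (hli.comp (fun p : M × ℕ => ((p.2, p.1.k), p.1.w))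
        fun p q h => by
          simp only [Prod.mk.injEq] at h
          exact Prod.ext (M.ext h.2 h.1.2) h.1.1) (bs.repr f) (by
        have := congrArg Phi hfg
        rw [← bs.linearCombination_repr f, map_zero, Finsupp.linearCombination_apply, Finsupp.sum,
          Finset.sum_mul, map_sum] at this
        rw [← this, Finsupp.linearCombination_apply, Finsupp.sum]
        exact Finset.sum_congr rfl fun p _ => by rw [smul_mul_assoc, map_smul, Phi_mul]; rfl)
      exact hf (bs.repr.map_eq_zero_iff.1 h2)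
  · simp only [sq, MonoidAlgebra.single_mul_single, mul_one]
    congr 1
  · have := congrArg (fun p : R => p.coeff ⟨{0}, 1⟩) h
    simp only [sq, MonoidAlgebra.single_mul_single, MonoidAlgebra.coeff_single,
      Finsupp.single_eq_same] at this
    rw [MonoidAlgebra.coeff_mul_single_of_forall_mul_ne] at this
    · exact one_ne_zero this
    · intro d hd
      have h1 : d.k + 2 = 1 := congrArg M.k hd
      have h2 : st d.w (({0} : E).map (· + d.k)) = {0} := congrArg M.w hd
      have h3 : d.k ∈ st d.w (({0} : E).map (· + d.k)) :=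
        mem_st.2 (Or.inr ⟨by simp, fun s hs => by
          have : s ∈ ({0} : E) := h2 ▸ mem_st.2 (Or.inl hs)
          simp at this; omega⟩)
      rw [h2] at h3
      simp at h3; omega

end Pool.Agent.Results.MP_4d240a_al.LeftCex
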