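import Mathlib

/-! A unital right McCoy ring that is not right Dischinger. -/

set_option autoImplicit false

namespace Pool.Agent.Results.MP_4d240a_al.RightCex

open Polynomial

/-- Right McCoy: nonzero `f, g` in `S[x]` with `f g = 0` force a nonzero `s` in `S` with `f s = 0`. -/
def RightMcCoy (S : Type) [Ring S] : Prop :=
  ∀ f g : S[X], f ≠ 0 → g ≠ 0 → f * g = 0 → ∃ s : S, s ≠ 0 ∧ f * C s = 0

abbrev P := ℕ × ℕ

@[ext] structure M where
  f : P → P
  inj : Function.Injective f
  av : f = id ∨ ∀ x, f x ≠ (0, 0)

instance : Monoid M where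
  mul m w := ⟨w.f ∘ m.f, w.inj.comp m.inj, by
    rcases w.av with h | h
    · rw [h]; exact m.av
    · exact Or.inr fun x => h _⟩
  one := ⟨id, Function.injective_id, Or.inl rfl⟩
  mul_assoc _ _ _ := rfl
  one_mul _ := rfl
  mul_one _ := rfl

theorem mul_f (m w : M) : (m * w).f = w.f ∘ m.f := rfl

theorem av' {m : M} (h : m ≠ 1) (x : P) : m.f x ≠ (0, 0) :=
  (m.av.resolve_left fun e => h (M.ext e)) x

def a : M := ⟨fun x => (x.1, x.2 + 1), fun x y h => by
  simp only [Prod.mk.injEq] at h; exact Prod.ext h.1 (by omega), Or.inr fun x => by simp⟩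

def y : M := ⟨fun x => if x.2 ≤ 1 then (2 * x.1 + x.2 + 1, 0) else (x.1, x.2 - 1), fun x y h => by
  dsimp only at h
  split_ifs at h <;> simp only [Prod.mk.injEq] at h <;> exact Prod.ext (by omega) (by omega),
  Or.inr fun x => by split_ifs <;> simp; omega⟩

def s : M := ⟨fun x => if x = (0, 0) then (0, 1) else (x.1, x.2 + 2), fun x y h => by
  dsimp only at h
  split_ifs at h with h1 h2 h2
  · rw [h1, h2]
  · simp at h
  · simp at h
  · simp only [Prod.mk.injEq] at h; exact Prod.ext h.1 (by omega),
  Or.inr fun x => by split_ifs <;> simp⟩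

theorem aay : a * a * y = a := M.ext (funext fun x => by simp [mul_f, a, y])

theorem s_ne : s ≠ a * a := fun h => by
  have := congrFun (congrArg M.f h) (0, 0)
  simp [mul_f, s, a] at this

theorem mul_s {m : M} (h : m ≠ 1) : m * s = m * (a * a) :=
  M.ext (funext fun x => by simp [mul_f, s, a, av' h x])

theorem ne_a (m : M) : m * (a * a) ≠ a := fun h => by
  have := congrFun (congrArg M.f h) (0, 0)
  simp [mul_f, a] at this

abbrev R := MonoidAlgebra ℤ M

theorem coeff_mul_min (p q : R) (w : M) (hw : ∀ m v, v ∈ q.coeff.support → m * v = w → m = 1) :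
    (p * q).coeff w = p.coeff 1 * q.coeff w := by
  classical
  rw [MonoidAlgebra.coeff_mul, Finsupp.sum, Finset.sum_eq_single 1]
  · rw [Finsupp.sum, Finset.sum_eq_single w] <;> simp +contextual
  · intro m _ hm
    exact Finset.sum_eq_zero fun v hv => if_neg fun h => hm (hw m v hv h)
  · intro h; simp [Finsupp.notMem_support_iff.1 h]

theorem result : ∃ (S : Type) (_ : Ring S), RightMcCoy S ∧
    ∃ a : S, (∃ y, a = a ^ 2 * y) ∧ ∀ z, a ≠ z * a ^ 2 := by
  classical
  refine ⟨R, inferInstance, fun f g hf hg hfg => ?_, MonoidAlgebra.single a 1,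
    ⟨MonoidAlgebra.single y 1, by simp [sq, MonoidAlgebra.single_mul_single, aay]⟩, fun z h => ?_⟩
  · by_cases h1 : ∀ i, (f.coeff i).coeff 1 = 0
    · refine ⟨.single s 1 - .single (a * a) 1, fun h => s_ne ?_, ?_⟩
      · simpa [MonoidAlgebra.single_left_inj] using sub_eq_zero.1 h
      · ext1 i
        rw [coeff_mul_C, coeff_zero, ← MonoidAlgebra.sum_coeff_single (f.coeff i), Finsupp.sum,
          Finset.sum_mul]
        refine Finset.sum_eq_zero fun m hm => ?_
        have : m ≠ 1 := fun e => Finsupp.mem_support_iff.1 hm (e ▸ h1 i)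
        simp [mul_sub, MonoidAlgebra.single_mul_single, mul_s this]
    · exfalso
      let T : Finset M := g.support.biUnion fun j => (g.coeff j).coeff.support
      have hT : T.Nonempty := by
        obtain ⟨j, hj⟩ := support_nonempty.2 hg
        obtain ⟨w, hw⟩ := Finsupp.support_nonempty_iff.2
          (show (g.coeff j).coeff ≠ 0 by simpa using mem_support_iff.1 hj)
        exact ⟨w, Finset.mem_biUnion.2 ⟨j, hj, hw⟩⟩
      obtain ⟨w, hw⟩ := T.finite_toSet.exists_maximalFor (fun w : M => Set.range w.f) _ hT
      have hmin : ∀ j m v, v ∈ (g.coeff j).coeff.support → m * v = w → m = 1 := fun j m v hv h => by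
        by_contra hm
        have hv' : v ∈ T := Finset.mem_biUnion.2 ⟨j, mem_support_iff.2 fun e => by simp [e] at hv, hv⟩
        obtain ⟨x, hx⟩ := hw.2 hv' (by rw [← h]; exact Set.range_comp_subset_range m.f v.f)
          ⟨(0, 0), rfl⟩
        rw [← h] at hx
        exact av' hm x (v.inj hx)
      let c : ℤ[X] := ∑ i ∈ f.support, monomial i ((f.coeff i).coeff 1)
      let d : ℤ[X] := ∑ i ∈ g.support, monomial i ((g.coeff i).coeff w)
      have hc : ∀ i, c.coeff i = (f.coeff i).coeff 1 := fun i => by
        simp only [c, finsetSum_coeff, coeff_monomial, Finset.sum_ite_eq', mem_support_iff]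
        split_ifs with h <;> simp_all
      have hd : ∀ i, d.coeff i = (g.coeff i).coeff w := fun i => by
        simp only [d, finsetSum_coeff, coeff_monomial, Finset.sum_ite_eq', mem_support_iff]
        split_ifs with h <;> simp_all
      have : c * d = 0 := by
        ext k
        have := congrArg (fun p : R[X] => (p.coeff k).coeff w) hfg
        simp only [coeff_mul, MonoidAlgebra.coeff_sum, Finsupp.finsetSum_apply,
          coeff_mul_min _ _ w (hmin _)] at this
        simpa [coeff_mul, hc, hd] using this
      rcases mul_eq_zero.1 this with h | h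
      · exact h1 fun i => by rw [← hc, h, coeff_zero]
      · obtain ⟨j, -, hj⟩ := Finset.mem_biUnion.1 hw.1
        exact Finsupp.mem_support_iff.1 hj (by rw [← hd, h, coeff_zero])
  · have := congrArg (fun p : R => p.coeff a) h
    simp only [sq, MonoidAlgebra.single_mul_single, MonoidAlgebra.coeff_single,
      Finsupp.single_eq_same] at this
    rw [MonoidAlgebra.coeff_mul_single_of_forall_mul_ne _ _ ne_a] at this
    exact one_ne_zero this

end Pool.Agent.Results.MP_4d240a_al.RightCex
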